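import Pool.Agent.helper85.SQ.Defs
import Pool.Agent.helper74.TG.SW
import Mathlib.NumberTheory.Chebyshev

/-!
# SQ project (MP_ad8ced_nt), module sq:PM: primes in a residue class, dyadic range
-/

namespace Pool.Agent.helper85.SQ

open Finset ArithmeticFunction Filter

/-- the contribution of the integers which are not primes. -/
theorem pm_powers (P : ℕ) (hP : 1 ≤ P) :
    ∑ n ∈ Ioc 0 P with ¬ n.Prime, vonMangoldt n ≤ 2 * √P * Real.log P := by
  have h := Chebyshev.abs_psi_sub_theta_le_sqrt_mul_log (x := (P : ℝ)) (by exact_mod_cast hP)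
  have h1 := le_trans (le_abs_self _) h
  have e1 : Chebyshev.psi (P : ℝ) = ∑ n ∈ Ioc 0 P, vonMangoldt n := by
    rw [Chebyshev.psi, Nat.floor_natCast]
  have e2 : Chebyshev.theta (P : ℝ) = ∑ n ∈ Ioc 0 P with n.Prime, vonMangoldt n := by
    rw [Chebyshev.theta, Nat.floor_natCast]
    refine sum_congr rfl fun p hp => ?_
    rw [vonMangoldt_apply_prime (mem_filter.mp hp).2]
  have e3 := sum_filter_add_sum_filter_not (Ioc 0 P) Nat.Prime (fun n => vonMangoldt n)
  linarith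

theorem pm_class (M u P : ℕ) (hP : 1 ≤ P) :
    (∑ n ∈ Ioc 0 P with n ≡ u [MOD M], vonMangoldt n)
      - (∑ n ∈ Ioc 0 (P / 2) with n ≡ u [MOD M], vonMangoldt n)
      ≤ #(PP M u P) * Real.log P + 2 * √P * Real.log P := by
  have h1 : (∑ n ∈ Ioc 0 P with n ≡ u [MOD M], vonMangoldt n)
      - (∑ n ∈ Ioc 0 (P / 2) with n ≡ u [MOD M], vonMangoldt n)
      = ∑ n ∈ Ioc (P / 2) P with n ≡ u [MOD M], vonMangoldt n := by
    rw [sub_eq_iff_eq_add', sum_filter, sum_filter, sum_filter]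
    exact (sum_Ioc_consecutive _ (Nat.zero_le _) (Nat.div_le_self P 2)).symm
  rw [h1]
  have h2 := sum_filter_add_sum_filter_not ({n ∈ Ioc (P / 2) P | n ≡ u [MOD M]}) Nat.Prime
    (fun n => vonMangoldt n)
  rw [← h2]
  refine add_le_add ?_ ?_
  · have h3 : (#(PP M u P) : ℝ) * Real.log P = ∑ n ∈ PP M u P, Real.log P := by
      rw [sum_const, nsmul_eq_mul]
    rw [h3]
    have h4 : (({n ∈ Ioc (P / 2) P | n ≡ u [MOD M]}).filter Nat.Prime) = PP M u P := by
      ext n
      simp only [PP, mem_filter]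
      tauto
    rw [h4]
    refine sum_le_sum fun n hn => ?_
    simp only [PP, mem_filter, mem_Ioc] at hn
    rw [vonMangoldt_apply_prime hn.2.1]
    exact Real.log_le_log (by exact_mod_cast hn.2.1.pos) (by exact_mod_cast hn.1.2)
  · refine le_trans (sum_le_sum_of_subset_of_nonneg ?_ fun _ _ _ => vonMangoldt_nonneg)
      (pm_powers P hP)
    intro n hn
    simp only [mem_filter, mem_Ioc] at hn ⊢
    exact ⟨⟨by omega, hn.1.1.2⟩, hn.2⟩

/-- sq:PM -/
theorem card_PP (M u : ℕ) (hM : 0 < M) (hu : Nat.Coprime u M) : ∃ (c : ℝ) (P₀ : ℕ), 0 < c ∧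
    ∀ P : ℕ, P₀ ≤ P → c * (P / Real.log P) ≤ #(PP M u P) := by
  obtain ⟨C, x₀, hC, hSW⟩ := Pool.Agent.helper74.TG.siegel_walfisz 1 1
  have hφ : (0 : ℝ) < (Nat.totient M : ℝ) := by exact_mod_cast Nat.totient_pos.mpr hM
  refine ⟨1 / (8 * (Nat.totient M : ℝ)), ?_⟩
  have E1 : ∀ᶠ x : ℝ in atTop, x₀ ≤ x := eventually_ge_atTop x₀
  have E2 : ∀ᶠ x : ℝ in atTop, max (M : ℝ) (8 * C * Nat.totient M + 1) ≤ Real.log x :=
    Real.tendsto_log_atTop.eventually_ge_atTop _
  have E3 : ∀ᶠ x : ℝ in atTop, ‖Real.log x‖ ≤ 1 / (16 * (Nat.totient M : ℝ)) * ‖x ^ (1 / 2 : ℝ)‖ :=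
    (isLittleO_log_rpow_atTop (by norm_num : (0 : ℝ) < 1 / 2)).bound (by positivity)
  have E4 : ∀ᶠ x : ℝ in atTop, 1 ≤ x := eventually_ge_atTop 1
  obtain ⟨P₀, hP₀⟩ := (tendsto_natCast_atTop_atTop (R := ℝ)).eventually
    (E1.and (E2.and (E3.and E4))) |> eventually_atTop.mp
  refine ⟨P₀, by positivity, fun P hP => ?_⟩
  obtain ⟨h1, h2, h3, h4⟩ := hP₀ P hP
  have hMl : (M : ℝ) ≤ Real.log P := le_trans (le_max_left _ _) h2
  have hCl : 8 * C * Nat.totient M + 1 ≤ Real.log P := le_trans (le_max_right _ _) h2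
  have hlog : 0 < Real.log P := lt_of_lt_of_le (by positivity) hCl
  have hP1 : 1 ≤ P := by exact_mod_cast h4
  have hPpos : (0 : ℝ) < P := by linarith
  have S1 := hSW (P : ℝ) h1 M hM (by rw [pow_one]; exact hMl) u hu P le_rfl
  have S2 := hSW (P : ℝ) h1 M hM (by rw [pow_one]; exact hMl) u hu (P / 2)
    (by exact_mod_cast Nat.div_le_self P 2)
  rw [pow_one] at S1 S2
  have S1' := (abs_le.mp S1).1
  have S2' := (abs_le.mp S2).2
  have K := pm_class M u P hP1
  have hhalf : ((P / 2 : ℕ) : ℝ) ≤ P / 2 := by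
    have := @Nat.cast_div_le ℝ _ _ _ P 2
    simpa using this
  have hhalf' : ((P / 2 : ℕ) : ℝ) / (Nat.totient M : ℝ) ≤ P / 2 / (Nat.totient M : ℝ) := by
    gcongr
  -- error term of Siegel-Walfisz
  have hE : C * P / Real.log P ≤ P / (8 * (Nat.totient M : ℝ)) := by
    rw [div_le_div_iff₀ hlog (by positivity)]
    nlinarith
  -- prime powers
  have hsq : √(P : ℝ) * √(P : ℝ) = P := Real.mul_self_sqrt hPpos.le
  have h3' : Real.log P ≤ 1 / (16 * (Nat.totient M : ℝ)) * √P := by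
    have := h3
    rw [Real.norm_of_nonneg hlog.le, Real.norm_of_nonneg (by positivity),
      ← Real.sqrt_eq_rpow] at this
    exact this
  have hPW : 2 * √P * Real.log P ≤ P / (8 * (Nat.totient M : ℝ)) := by
    calc 2 * √P * Real.log P ≤ 2 * √P * (1 / (16 * (Nat.totient M : ℝ)) * √P) := by gcongr
      _ = (√P * √P) / (8 * (Nat.totient M : ℝ)) := by
          field_simp
          norm_num
      _ = _ := by rw [hsq]
  have key : P / (8 * (Nat.totient M : ℝ)) ≤ #(PP M u P) * Real.log P := by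
    have e1 : (P : ℝ) / (Nat.totient M : ℝ) = 8 * (P / (8 * (Nat.totient M : ℝ))) := by
      field_simp
    have e2 : (P : ℝ) / 2 / (Nat.totient M : ℝ) = 4 * (P / (8 * (Nat.totient M : ℝ))) := by
      field_simp
      norm_num
    linarith
  calc 1 / (8 * (Nat.totient M : ℝ)) * (P / Real.log P)
      = (P / (8 * (Nat.totient M : ℝ))) / Real.log P := by
        field_simp
    _ ≤ (#(PP M u P) * Real.log P) / Real.log P := by gcongr
    _ = #(PP M u P) := by field_simp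

end Pool.Agent.helper85.SQ
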