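import Pool.Agent.helper85.SQ.Defs
import Pool.Agent.helper85.BVP.Var

/-!
# SQ project (MP_ad8ced_nt), module VAR: the large sieve in variance form for squares of primes
-/

namespace Pool.Agent.helper85.SQ

open Finset Real Pool.Agent.helper85.BVP

/-! ### sq:VAR -/
theorem var_sieve_sq (P : Finset ℕ) (hP : ∀ p ∈ P, p.Prime) (Q : ℕ) (hQ : 1 ≤ Q)
    (hPQ : ∀ p ∈ P, p ≤ Q) (M N : ℕ) (S : Finset ℕ) (hS : S ⊆ Ioc M (M + N)) (a : ℕ → ℝ) :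
    ∑ p ∈ P, ((p ^ 2 : ℕ) : ℝ) * ∑ h ∈ range (p ^ 2),
        (cls S a (p ^ 2) h - (∑ n ∈ S, a n) / ((p ^ 2 : ℕ) : ℝ)) ^ 2
      ≤ 5 * ((N : ℝ) + Q ^ 4) * ∑ n ∈ S, a n ^ 2 := by
  classical
  have h1 : ∑ p ∈ P, ((p ^ 2 : ℕ) : ℝ) * ∑ h ∈ range (p ^ 2),
        (cls S a (p ^ 2) h - (∑ n ∈ S, a n) / ((p ^ 2 : ℕ) : ℝ)) ^ 2
      = ∑ x ∈ P.sigma (fun q => Ico 1 (q ^ 2)),
        ‖∑ n ∈ S, (a n : ℂ) * ex ((n : ℝ) * ((x.2 : ℝ) / ((x.1 ^ 2 : ℕ) : ℝ)))‖ ^ 2 := by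
    rw [sum_sigma]
    exact sum_congr rfl fun q hq => variance_eq S a (q ^ 2) (pow_pos (hP q hq).pos 2)
  rw [h1]
  set L := N + Q ^ 4 with hL
  have hL0 : 0 < L := by positivity
  set a' : ℕ → ℂ := fun n => if M + 1 + n ∈ S then (a (M + 1 + n) : ℂ) else 0 with ha'
  have hQr : (1 : ℝ) ≤ Q := by exact_mod_cast hQ
  have himg : S ⊆ (range (2 * L)).image (fun n => M + 1 + n) := by
    intro m hm
    have := mem_Ioc.mp (hS hm)
    rw [mem_image]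
    exact ⟨m - (M + 1), mem_range.mpr (by omega), by omega⟩
  have hre : ∀ g : ℕ → ℂ, (∀ m ∉ S, g m = 0) →
      ∑ n ∈ range (2 * L), g (M + 1 + n) = ∑ m ∈ S, g m := by
    intro g hg
    rw [← sum_image (f := g) (g := fun n => M + 1 + n) (s := range (2 * L))
      (by intro x _ y _ h; simp only at h; omega)]
    exact (sum_subset himg (fun m _ hm => hg m hm)).symm
  have h2 : ∀ α : ℝ, ∑ n ∈ range (2 * L), a' n * ex (((((M + 1 : ℕ) : ℤ) + n : ℤ) : ℝ) * α)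
      = ∑ n ∈ S, (a n : ℂ) * ex ((n : ℝ) * α) := by
    intro α
    rw [← hre (fun m => if m ∈ S then (a m : ℂ) * ex ((m : ℝ) * α) else 0)
      (fun m hm => if_neg hm) |>.trans (sum_congr rfl fun m hm => if_pos hm)]
    refine sum_congr rfl fun n _ => ?_
    simp only [ha']
    split_ifs
    · push_cast
      ring
    · simp
  have h3 : ∑ n ∈ range (2 * L), ‖a' n‖ ^ 2 = ∑ n ∈ S, a n ^ 2 := by
    have e := hre (fun m => if m ∈ S then ((a m ^ 2 : ℝ) : ℂ) else 0) (fun m hm => if_neg hm)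
    rw [sum_congr rfl (fun m (hm : m ∈ S) => if_pos hm)] at e
    have e2 : ((∑ n ∈ range (2 * L), ‖a' n‖ ^ 2 : ℝ) : ℂ) = ((∑ n ∈ S, a n ^ 2 : ℝ) : ℂ) := by
      push_cast at e ⊢
      rw [← e]
      refine sum_congr rfl fun n _ => ?_
      simp only [ha']
      split_ifs
      · rw [Complex.norm_real, Real.norm_eq_abs, ← Complex.ofReal_pow, sq_abs]
        push_cast
        rfl
      · simp
    exact_mod_cast e2
  have hδ : (0 : ℝ) < 1 / (Q : ℝ) ^ 4 := by positivity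
  have h4 := additive (P.sigma (fun q => Ico 1 (q ^ 2)))
    (fun x => (x.2 : ℝ) / ((x.1 ^ 2 : ℕ) : ℝ)) (1 / (Q : ℝ) ^ 4) hδ
    ?_ a' ((M + 1 : ℕ) : ℤ) L hL0
  · simp only [h2, h3] at h4
    have hLr : (0 : ℝ) < L := by exact_mod_cast hL0
    have hcast : ((N : ℝ) + Q ^ 4) = L := by rw [hL]; push_cast; ring
    rw [hcast]
    have h5 : 4 * (L : ℝ) ^ 2 + 1 / (1 / (Q : ℝ) ^ 4) ^ 2 ≤ L * (5 * L) := by
      have h6 : 1 / (1 / (Q : ℝ) ^ 4) ^ 2 = ((Q : ℝ) ^ 4) ^ 2 := by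
        field_simp
      have h7 : (Q : ℝ) ^ 4 ≤ L := by rw [← hcast]; linarith [Nat.cast_nonneg (α := ℝ) N]
      have h8 : ((Q : ℝ) ^ 4) ^ 2 ≤ (L : ℝ) ^ 2 := pow_le_pow_left₀ (by positivity) h7 2
      rw [h6]
      nlinarith
    have h9 : (L : ℝ) * ∑ x ∈ P.sigma (fun q => Ico 1 (q ^ 2)),
        ‖∑ n ∈ S, (a n : ℂ) * ex ((n : ℝ) * ((x.2 : ℝ) / ((x.1 ^ 2 : ℕ) : ℝ)))‖ ^ 2
        ≤ L * (5 * L * ∑ n ∈ S, a n ^ 2) := by
      refine h4.trans ?_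
      rw [← mul_assoc]
      exact mul_le_mul_of_nonneg_right h5 (sum_nonneg fun _ _ => sq_nonneg _)
    exact le_of_mul_le_mul_left h9 hLr
  · rintro ⟨q, r⟩ hx ⟨q', r'⟩ hx' hne
    rw [mem_sigma, mem_Ico] at hx hx'
    simp only at hx hx' ⊢
    obtain ⟨hq, hr1, hr2⟩ := hx
    obtain ⟨hq', hr1', hr2'⟩ := hx'
    have hqp := hP q hq
    have hqp' := hP q' hq'
    have hq0 : (0 : ℝ) < q := by exact_mod_cast hqp.pos
    have hq0' : (0 : ℝ) < q' := by exact_mod_cast hqp'.pos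
    have hs0 : (0 : ℝ) < ((q ^ 2 : ℕ) : ℝ) := by exact_mod_cast pow_pos hqp.pos 2
    have hs0' : (0 : ℝ) < ((q' ^ 2 : ℕ) : ℝ) := by exact_mod_cast pow_pos hqp'.pos 2
    set m : ℤ := round ((r : ℝ) / ((q ^ 2 : ℕ) : ℝ) - (r' : ℝ) / ((q' ^ 2 : ℕ) : ℝ)) with hm
    have h5 : sd ((r : ℝ) / ((q ^ 2 : ℕ) : ℝ) - (r' : ℝ) / ((q' ^ 2 : ℕ) : ℝ))
        = (((r : ℤ) * (q' ^ 2 : ℕ) - r' * (q ^ 2 : ℕ) - m * ((q ^ 2 : ℕ) * (q' ^ 2 : ℕ)) : ℤ) : ℝ)
          / (((q ^ 2 : ℕ) : ℝ) * ((q' ^ 2 : ℕ) : ℝ)) := by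
      rw [sd, ← hm]
      push_cast
      field_simp
    have h6 : (r : ℤ) * (q' ^ 2 : ℕ) - r' * (q ^ 2 : ℕ) - m * ((q ^ 2 : ℕ) * (q' ^ 2 : ℕ)) ≠ 0 := by
      intro h0
      by_cases hqq : q = q'
      · subst hqq
        set w : ℕ := q ^ 2 with hw
        have hw0 : 0 < w := pow_pos hqp.pos 2
        have h7 : ((r : ℤ) - r' - m * w) * w = 0 := by linear_combination h0
        have h8 : (r : ℤ) - r' - m * w = 0 := by
          rcases mul_eq_zero.mp h7 with h | h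
          · exact h
          · have : w = 0 := by exact_mod_cast h
            exact absurd this hw0.ne'
        have h9 : m = 0 := by
          by_contra hm0
          rcases lt_or_gt_of_ne hm0 with h | h
          · have : m ≤ -1 := by omega
            nlinarith
          · have : 1 ≤ m := by omega
            nlinarith
        rw [h9] at h8
        have : r = r' := by omega
        subst this
        exact hne rfl
      · have h7 : ((q ^ 2 : ℕ) : ℤ) ∣ (r : ℤ) * (q' ^ 2 : ℕ) :=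
          ⟨r' + m * (q' ^ 2 : ℕ), by linear_combination h0⟩
        have h8 : q ^ 2 ∣ r * q' ^ 2 := by exact_mod_cast h7
        have hcop : Nat.Coprime (q ^ 2) (q' ^ 2) :=
          Nat.Coprime.pow 2 2 ((Nat.coprime_primes hqp hqp').mpr hqq)
        have h9 := hcop.dvd_of_dvd_mul_right h8
        exact absurd (Nat.le_of_dvd (by omega) h9) (by omega)
    rw [h5, abs_div, abs_of_pos (mul_pos hs0 hs0')]
    have h7 : (1 : ℝ) ≤ |(((r : ℤ) * (q' ^ 2 : ℕ) - r' * (q ^ 2 : ℕ)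
        - m * ((q ^ 2 : ℕ) * (q' ^ 2 : ℕ)) : ℤ) : ℝ)| := by
      rw [← Int.cast_abs]
      exact_mod_cast Int.one_le_abs h6
    have h8 : ((q ^ 2 : ℕ) : ℝ) * ((q' ^ 2 : ℕ) : ℝ) ≤ Q ^ 4 := by
      have e1 : (q : ℝ) ≤ Q := by exact_mod_cast hPQ q hq
      have e2 : (q' : ℝ) ≤ Q := by exact_mod_cast hPQ q' hq'
      have e3 : (q : ℝ) ^ 2 ≤ Q ^ 2 := pow_le_pow_left₀ hq0.le e1 2
      have e4 : (q' : ℝ) ^ 2 ≤ Q ^ 2 := pow_le_pow_left₀ hq0'.le e2 2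
      push_cast
      calc (q : ℝ) ^ 2 * (q' : ℝ) ^ 2 ≤ Q ^ 2 * Q ^ 2 :=
            mul_le_mul e3 e4 (by positivity) (by positivity)
        _ = Q ^ 4 := by ring
    exact div_le_div₀ (abs_nonneg _) h7 (mul_pos hs0 hs0') h8

end Pool.Agent.helper85.SQ
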