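import Pool.Agent.helper85.SQ.Defs
import Pool.Agent.helper85.BVP.Pairs

/-!
# SQ project (MP_ad8ced_nt), module PH: pairs of primes, the sum of `h(q₂² - q₁²)²`
-/

namespace Pool.Agent.helper85.SQ

open Finset Pool.Agent.helper85.BVP

lemma ph_h6_le (b : ℕ) : h b ^ 6 ≤ ∑ T ∈ b.primeFactors.powerset, ∏ l ∈ T, (126 / (l : ℝ)) := by
  rw [← Finset.prod_one_add, h, ← prod_pow]
  refine prod_le_prod (fun l hl => by
    have := one_le_inv (Nat.prime_of_mem_primeFactors hl)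
    positivity) fun l hl => ?_
  have hlp := Nat.prime_of_mem_primeFactors hl
  have h2 : (2 : ℝ) ≤ l := by exact_mod_cast hlp.two_le
  have e : (1 - 1 / (l : ℝ)) = (l - 1) / l := by field_simp
  rw [e, inv_div, div_pow, div_le_iff₀ (by
    have : (0 : ℝ) < l - 1 := by linarith
    positivity)]
  have e2 : (1 + 126 / (l : ℝ)) * (l - 1) ^ 6 = (l + 126) * (l - 1) ^ 6 / l := by field_simp
  rw [e2, le_div_iff₀ (by linarith)]
  set t := (l : ℝ) - 2 with ht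
  have ht0 : 0 ≤ t := by linarith
  have hl' : (l : ℝ) = t + 2 := by rw [ht]; ring
  rw [hl']
  have : (t + 2 + 126) * (t + 2 - 1) ^ 6 - (t + 2) ^ 6 * (t + 2)
      = 120 * t ^ 6 + 699 * t ^ 5 + 1660 * t ^ 4 + 2015 * t ^ 3 + 1254 * t ^ 2 + 321 * t := by ring
  have h3 : 0 ≤ 120 * t ^ 6 + 699 * t ^ 5 + 1660 * t ^ 4 + 2015 * t ^ 3 + 1254 * t ^ 2 + 321 * t := by
    positivity
  linarith

lemma ph_sum_h6 (n : ℕ) : ∑ b ∈ Ioc 0 n, h b ^ 6 ≤ Real.exp 126 * n := by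
  classical
  have h1 : ∑ b ∈ Ioc 0 n, h b ^ 6
      ≤ ∑ b ∈ Ioc 0 n, ∑ T ∈ (Nat.primesLE n).powerset,
        if (∏ l ∈ T, l) ∣ b then (∏ l ∈ T, (126 / (l : ℝ))) else 0 := by
    refine sum_le_sum fun b hb => ?_
    rw [mem_Ioc] at hb
    calc h b ^ 6 ≤ ∑ T ∈ b.primeFactors.powerset, ∏ l ∈ T, (126 / (l : ℝ)) := ph_h6_le b
      _ ≤ ∑ T ∈ b.primeFactors.powerset,
            if (∏ l ∈ T, l) ∣ b then (∏ l ∈ T, (126 / (l : ℝ))) else 0 := by
          refine sum_le_sum fun T hT => ?_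
          rw [mem_powerset] at hT
          rw [if_pos]
          refine Finset.prod_primes_dvd b (fun l hl => ?_) (fun l hl => ?_)
          · exact (Nat.prime_of_mem_primeFactors (hT hl)).prime
          · exact Nat.dvd_of_mem_primeFactors (hT hl)
      _ ≤ _ := by
          refine sum_le_sum_of_subset_of_nonneg ?_ (fun T _ _ => ?_)
          · refine powerset_mono.mpr fun l hl => ?_
            rw [Nat.mem_primesLE]
            exact ⟨(Nat.le_of_dvd (by omega) (Nat.dvd_of_mem_primeFactors hl)).trans hb.2,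
              Nat.prime_of_mem_primeFactors hl⟩
          · split_ifs
            · positivity
            · exact le_rfl
  refine h1.trans ?_
  rw [sum_comm]
  have h2 : ∀ T ∈ (Nat.primesLE n).powerset, (∑ b ∈ Ioc 0 n,
      if (∏ l ∈ T, l) ∣ b then (∏ l ∈ T, (126 / (l : ℝ))) else 0)
      ≤ (∏ l ∈ T, (126 / (l : ℝ) ^ 2)) * n := by
    intro T hT
    rw [mem_powerset] at hT
    have hpos : 0 < ∏ l ∈ T, l := prod_pos fun l hl => (Nat.mem_primesLE.mp (hT hl)).2.pos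
    rw [← sum_filter, sum_const, nsmul_eq_mul, Nat.Ioc_filter_dvd_card_eq_div]
    have h3 : ((n / ∏ l ∈ T, l : ℕ) : ℝ) ≤ n / ((∏ l ∈ T, l : ℕ) : ℝ) := Nat.cast_div_le
    refine (mul_le_mul_of_nonneg_right h3 (prod_nonneg fun l _ => by positivity)).trans (le_of_eq ?_)
    push_cast
    rw [div_mul_eq_mul_div, mul_comm (n : ℝ), mul_div_right_comm, ← prod_div_distrib]
    congr 1
    refine prod_congr rfl fun l _ => ?_
    rw [pow_two, ← div_div]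
  refine (sum_le_sum h2).trans ?_
  rw [← sum_mul, ← Finset.prod_one_add]
  refine mul_le_mul_of_nonneg_right ?_ (Nat.cast_nonneg n)
  calc ∏ l ∈ Nat.primesLE n, (1 + 126 / (l : ℝ) ^ 2)
      ≤ ∏ l ∈ Nat.primesLE n, Real.exp (126 * (1 / (l : ℝ) ^ 2)) := by
        refine prod_le_prod (fun l _ => by positivity) fun l _ => ?_
        have := Real.add_one_le_exp (126 * (1 / (l : ℝ) ^ 2))
        have e : 126 / (l : ℝ) ^ 2 = 126 * (1 / (l : ℝ) ^ 2) := by ring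
        rw [e]; linarith
    _ = Real.exp (126 * ∑ l ∈ Nat.primesLE n, 1 / (l : ℝ) ^ 2) := by
        rw [mul_sum, Real.exp_sum]
    _ ≤ Real.exp 126 := by
        rw [Real.exp_le_exp]
        have := sum_inv_sq_primes n
        linarith

/-- representations as a sum of two primes -/
lemma ph_prime_sums : ∃ (C : ℝ) (D : ℕ), 0 < C ∧ ∀ Q : ℕ, D ≤ Q → ∀ s : ℕ, 1 ≤ s →
    (#{q ∈ Ioc 0 Q | q.Prime ∧ q < s ∧ (s - q).Prime} : ℝ)
      ≤ C * (h s ^ 2 * (Q / Real.log Q ^ 2)) := by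
  obtain ⟨C, D, hC, hCD⟩ := two_forms
  refine ⟨4 * C + 32, max D 2, by positivity, ?_⟩
  intro Q hQ s hs
  have hQ2 : 2 ≤ Q := le_trans (le_max_right _ _) hQ
  obtain ⟨z, hz2, hzQ, hz⟩ := hCD Q (le_trans (le_max_left _ _) hQ)
  have hQr : (0 : ℝ) < Q := by exact_mod_cast (by omega : 0 < Q)
  have hlogQ : 0 < Real.log Q := Real.log_pos (by exact_mod_cast (by omega : 1 < Q))
  set S := {q ∈ Ioc 0 Q | q.Prime ∧ q < s ∧ (s - q).Prime} with hS
  set S' := S.filter (fun q => z < q ∧ z < s - q) with hS'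
  have h1 : (#S' : ℝ) ≤ C * (h (2 * s) ^ 2 * (Q / Real.log Q ^ 2)) := by
    refine hz 1 1 0 (-(s : ℤ)) (2 * s) (by omega) (dvd_mul_right 2 s) ?_ S' ?_
    · intro l hl hld
      refine ⟨?_, ?_, ?_⟩
      · intro h; exact hl.one_lt.ne' (Nat.dvd_one.mp h)
      · intro h; exact hl.one_lt.ne' (Nat.dvd_one.mp h)
      · intro h
        apply hld
        have : (l : ℤ) ∣ s := by simpa using h
        exact Dvd.dvd.mul_left (by exact_mod_cast this) 2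
    · intro q hq
      rw [hS', mem_filter, hS, mem_filter] at hq
      obtain ⟨⟨hqI, hqp, hqs, hqd⟩, hzq, hzs⟩ := hq
      refine ⟨hqI, ?_⟩
      intro l hl hlz _
      constructor
      · intro h
        have h2 : l ∣ q := by
          have : (l : ℤ) ∣ q := by simpa using h
          exact_mod_cast this
        have := (Nat.prime_dvd_prime_iff_eq hl hqp).mp h2
        omega
      · intro h
        have h2 : l ∣ s - q := by
          have h3 : (l : ℤ) ∣ ((s - q : ℕ) : ℤ) := by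
            rw [Nat.cast_sub hqs.le]
            have h4 : (l : ℤ) ∣ -((1 : ℕ) * (q : ℤ) + -(s : ℤ)) := (dvd_neg).mpr h
            have e : -((1 : ℕ) * (q : ℤ) + -(s : ℤ)) = (s : ℤ) - q := by push_cast; ring
            rwa [e] at h4
          exact_mod_cast h3
        have := (Nat.prime_dvd_prime_iff_eq hl hqd).mp h2
        omega
  have h2 : #S ≤ #S' + (z + z) := by
    have h3 : S ⊆ S' ∪ (Ioc 0 z ∪ (Ioc 0 z).image (fun t => s - t)) := by
      intro q hq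
      rw [mem_union, mem_union, mem_image]
      by_cases h : z < q ∧ z < s - q
      · left; rw [hS', mem_filter]; exact ⟨hq, h⟩
      · right
        rw [hS, mem_filter, mem_Ioc] at hq
        by_cases h' : z < q
        · right
          refine ⟨s - q, ?_, by omega⟩
          rw [mem_Ioc]
          omega
        · left
          rw [mem_Ioc]
          omega
    have h4 := (card_le_card h3).trans (card_union_le _ _)
    have h5 : #(Ioc 0 z ∪ (Ioc 0 z).image (fun t => s - t)) ≤ z + z := by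
      refine (card_union_le _ _).trans (add_le_add ?_ (card_image_le.trans ?_)) <;>
        rw [Nat.card_Ioc, Nat.sub_zero]
    omega
  have h3 : (#S : ℝ) ≤ #S' + (z + z) := by exact_mod_cast h2
  have h4 : (z : ℝ) ≤ 16 * (Q / Real.log Q ^ 2) := (le_sqrt_nat hzQ).trans (sqrt_le_div Q hQ2)
  have h5 : h (2 * s) ^ 2 ≤ 4 * h s ^ 2 := by
    have h6 := pow_le_pow_left₀ (h_pos _).le (h_two_mul s (by omega)) 2
    rw [mul_pow] at h6
    linarith
  have h6 : (1 : ℝ) ≤ h s ^ 2 := one_le_pow₀ (one_le_h s)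
  have h7 : 0 ≤ (Q : ℝ) / Real.log Q ^ 2 := by positivity
  calc (#S : ℝ) ≤ #S' + (z + z) := h3
    _ ≤ C * (4 * h s ^ 2 * (Q / Real.log Q ^ 2)) + 32 * (h s ^ 2 * (Q / Real.log Q ^ 2)) := by
        refine add_le_add (h1.trans ?_) ?_
        · refine mul_le_mul_of_nonneg_left ?_ hC.le
          exact mul_le_mul_of_nonneg_right h5 h7
        · nlinarith
    _ = _ := by ring

/-- the differences -/
lemma ph_diff : ∃ (C : ℝ) (D : ℕ), 0 < C ∧ ∀ Q : ℕ, D ≤ Q → ∀ P : Finset ℕ,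
    (∀ q ∈ P, q.Prime ∧ q ≤ Q) →
    ∑ q₁ ∈ P, ∑ q₂ ∈ P with q₁ < q₂, h (q₂ - q₁) ^ 4 ≤ C * (Q / Real.log Q) ^ 2 := by
  obtain ⟨C, D, hC, hCD⟩ := prime_pairs
  refine ⟨C * Real.exp 126, max D 2, by positivity, ?_⟩
  intro Q hQ P hP
  have hQ2 : 2 ≤ Q := le_trans (le_max_right _ _) hQ
  have hQr : (0 : ℝ) < Q := by exact_mod_cast (by omega : 0 < Q)
  have hlogQ : 0 < Real.log Q := Real.log_pos (by exact_mod_cast (by omega : 1 < Q))
  have h1 : ∑ q₁ ∈ P, ∑ q₂ ∈ P with q₁ < q₂, h (q₂ - q₁) ^ 4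
      ≤ ∑ q₁ ∈ P, ∑ d ∈ Ioc 0 Q, if (q₁ + d).Prime then h d ^ 4 else 0 := by
    refine sum_le_sum fun q₁ hq₁ => ?_
    rw [← sum_filter]
    have e : ∑ q₂ ∈ P with q₁ < q₂, h (q₂ - q₁) ^ 4
        = ∑ d ∈ (P.filter (fun q₂ => q₁ < q₂)).image (fun q₂ => q₂ - q₁), h d ^ 4 := by
      rw [sum_image]
      intro x hx y hy hxy
      rw [mem_coe, mem_filter] at hx hy
      simp only at hxy
      omega
    rw [e]
    refine sum_le_sum_of_subset_of_nonneg ?_ (fun _ _ _ => by positivity)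
    intro d hd
    rw [mem_image] at hd
    obtain ⟨q₂, hq₂, rfl⟩ := hd
    rw [mem_filter] at hq₂
    have h2 := hP q₂ hq₂.1
    rw [mem_filter, mem_Ioc, Nat.add_sub_cancel' hq₂.2.le]
    exact ⟨⟨by omega, by omega⟩, h2.1⟩
  refine h1.trans ?_
  rw [sum_comm]
  have h2 : ∀ d ∈ Ioc 0 Q, (∑ q₁ ∈ P, if (q₁ + d).Prime then h d ^ 4 else 0)
      ≤ C * (Q / Real.log Q ^ 2) * h d ^ 6 := by
    intro d hd
    rw [mem_Ioc] at hd
    rw [← sum_filter, sum_const, nsmul_eq_mul]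
    have h3 : #(P.filter (fun q₁ => (q₁ + d).Prime)) ≤ #{q ∈ Ioc 0 Q | q.Prime ∧ (q + d).Prime} := by
      refine card_le_card ?_
      intro q hq
      rw [mem_filter] at hq
      rw [mem_filter, mem_Ioc]
      exact ⟨⟨(hP q hq.1).1.pos, (hP q hq.1).2⟩, (hP q hq.1).1, hq.2⟩
    have h4 : (#(P.filter (fun q₁ => (q₁ + d).Prime)) : ℝ)
        ≤ C * (h d ^ 2 * (Q / Real.log Q ^ 2)) :=
      le_trans (by exact_mod_cast h3) (hCD Q (le_trans (le_max_left _ _) hQ) d hd.1)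
    calc _ ≤ C * (h d ^ 2 * (Q / Real.log Q ^ 2)) * h d ^ 4 :=
          mul_le_mul_of_nonneg_right h4 (by positivity)
      _ = _ := by ring
  refine (sum_le_sum h2).trans ?_
  rw [← mul_sum]
  calc C * (Q / Real.log Q ^ 2) * ∑ d ∈ Ioc 0 Q, h d ^ 6
      ≤ C * (Q / Real.log Q ^ 2) * (Real.exp 126 * Q) :=
        mul_le_mul_of_nonneg_left (ph_sum_h6 Q) (by positivity)
    _ = C * Real.exp 126 * (Q / Real.log Q) ^ 2 := by
        field_simp

/-- the sums -/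
lemma ph_sum : ∃ (C : ℝ) (D : ℕ), 0 < C ∧ ∀ Q : ℕ, D ≤ Q → ∀ P : Finset ℕ,
    (∀ q ∈ P, q.Prime ∧ q ≤ Q) →
    ∑ q₁ ∈ P, ∑ q₂ ∈ P with q₁ < q₂, h (q₂ + q₁) ^ 4 ≤ C * (Q / Real.log Q) ^ 2 := by
  obtain ⟨C, D, hC, hCD⟩ := ph_prime_sums
  refine ⟨C * Real.exp 126 * 2, max D 2, by positivity, ?_⟩
  intro Q hQ P hP
  have hQ2 : 2 ≤ Q := le_trans (le_max_right _ _) hQ
  have hQr : (0 : ℝ) < Q := by exact_mod_cast (by omega : 0 < Q)
  have hlogQ : 0 < Real.log Q := Real.log_pos (by exact_mod_cast (by omega : 1 < Q))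
  have h1 : ∑ q₁ ∈ P, ∑ q₂ ∈ P with q₁ < q₂, h (q₂ + q₁) ^ 4
      ≤ ∑ q₁ ∈ P, ∑ s ∈ Ioc 0 (2 * Q), if q₁ < s ∧ (s - q₁).Prime then h s ^ 4 else 0 := by
    refine sum_le_sum fun q₁ hq₁ => ?_
    rw [← sum_filter]
    have e : ∑ q₂ ∈ P with q₁ < q₂, h (q₂ + q₁) ^ 4
        = ∑ s ∈ (P.filter (fun q₂ => q₁ < q₂)).image (fun q₂ => q₂ + q₁), h s ^ 4 := by
      rw [sum_image]
      intro x _ y _ hxy
      simp only at hxy
      omega
    rw [e]
    refine sum_le_sum_of_subset_of_nonneg ?_ (fun _ _ _ => by positivity)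
    intro s hs
    rw [mem_image] at hs
    obtain ⟨q₂, hq₂, rfl⟩ := hs
    rw [mem_filter] at hq₂
    have h2 := hP q₂ hq₂.1
    have h2' := hP q₁ hq₁
    have h3 := h2.1.pos
    rw [mem_filter, mem_Ioc, Nat.add_sub_cancel]
    exact ⟨⟨by omega, by omega⟩, by omega, h2.1⟩
  refine h1.trans ?_
  rw [sum_comm]
  have h2 : ∀ s ∈ Ioc 0 (2 * Q), (∑ q₁ ∈ P, if q₁ < s ∧ (s - q₁).Prime then h s ^ 4 else 0)
      ≤ C * (Q / Real.log Q ^ 2) * h s ^ 6 := by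
    intro s hs
    rw [mem_Ioc] at hs
    rw [← sum_filter, sum_const, nsmul_eq_mul]
    have h3 : #(P.filter (fun q₁ => q₁ < s ∧ (s - q₁).Prime))
        ≤ #{q ∈ Ioc 0 Q | q.Prime ∧ q < s ∧ (s - q).Prime} := by
      refine card_le_card ?_
      intro q hq
      rw [mem_filter] at hq
      rw [mem_filter, mem_Ioc]
      exact ⟨⟨(hP q hq.1).1.pos, (hP q hq.1).2⟩, (hP q hq.1).1, hq.2.1, hq.2.2⟩
    have h4 : (#(P.filter (fun q₁ => q₁ < s ∧ (s - q₁).Prime)) : ℝ)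
        ≤ C * (h s ^ 2 * (Q / Real.log Q ^ 2)) :=
      le_trans (by exact_mod_cast h3) (hCD Q (le_trans (le_max_left _ _) hQ) s hs.1)
    calc _ ≤ C * (h s ^ 2 * (Q / Real.log Q ^ 2)) * h s ^ 4 :=
          mul_le_mul_of_nonneg_right h4 (by positivity)
      _ = _ := by ring
  refine (sum_le_sum h2).trans ?_
  rw [← mul_sum]
  calc C * (Q / Real.log Q ^ 2) * ∑ s ∈ Ioc 0 (2 * Q), h s ^ 6
      ≤ C * (Q / Real.log Q ^ 2) * (Real.exp 126 * ((2 * Q : ℕ) : ℝ)) :=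
        mul_le_mul_of_nonneg_left (ph_sum_h6 (2 * Q)) (by positivity)
    _ = C * Real.exp 126 * 2 * (Q / Real.log Q) ^ 2 := by
        push_cast
        field_simp

/-! ### sq:PH (pairs) -/
theorem pairs_h : ∃ (C : ℝ) (D : ℕ), 0 < C ∧ ∀ Q : ℕ, D ≤ Q → ∀ P : Finset ℕ,
    (∀ q ∈ P, q.Prime ∧ q ≤ Q) →
    ∑ q₁ ∈ P, ∑ q₂ ∈ P with q₁ < q₂, h (q₂ ^ 2 - q₁ ^ 2) ^ 2 ≤ C * (Q / Real.log Q) ^ 2 := by
  obtain ⟨C₁, D₁, hC₁, h₁⟩ := ph_diff
  obtain ⟨C₂, D₂, hC₂, h₂⟩ := ph_sum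
  refine ⟨C₁ + C₂, max D₁ D₂, by positivity, ?_⟩
  intro Q hQ P hP
  have a1 := h₁ Q (le_trans (le_max_left _ _) hQ) P hP
  have a2 := h₂ Q (le_trans (le_max_right _ _) hQ) P hP
  calc ∑ q₁ ∈ P, ∑ q₂ ∈ P with q₁ < q₂, h (q₂ ^ 2 - q₁ ^ 2) ^ 2
      ≤ ∑ q₁ ∈ P, ∑ q₂ ∈ P with q₁ < q₂, (h (q₂ - q₁) ^ 4 + h (q₂ + q₁) ^ 4) := by
        refine sum_le_sum fun q₁ hq₁ => sum_le_sum fun q₂ hq₂ => ?_
        rw [mem_filter] at hq₂
        have e : q₂ ^ 2 - q₁ ^ 2 = (q₂ + q₁) * (q₂ - q₁) := Nat.sq_sub_sq q₂ q₁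
        rw [e]
        have h3 := h_mul_le (m := q₂ + q₁) (n := q₂ - q₁) (by omega) (by omega)
        have h4 := h_pos ((q₂ + q₁) * (q₂ - q₁))
        have h5 := h_pos (q₂ + q₁)
        have h6 := h_pos (q₂ - q₁)
        have h7 := pow_le_pow_left₀ h4.le h3 2
        have h8 : (h (q₂ + q₁) * h (q₂ - q₁)) ^ 2 ≤ h (q₂ - q₁) ^ 4 + h (q₂ + q₁) ^ 4 := by
          nlinarith [sq_nonneg (h (q₂ + q₁) ^ 2 - h (q₂ - q₁) ^ 2), sq_nonneg (h (q₂ + q₁) ^ 2),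
            sq_nonneg (h (q₂ - q₁) ^ 2)]
        exact h7.trans h8
    _ = ∑ q₁ ∈ P, ∑ q₂ ∈ P with q₁ < q₂, h (q₂ - q₁) ^ 4
        + ∑ q₁ ∈ P, ∑ q₂ ∈ P with q₁ < q₂, h (q₂ + q₁) ^ 4 := by
        rw [← sum_add_distrib]
        exact sum_congr rfl fun q₁ _ => sum_add_distrib
    _ ≤ C₁ * (Q / Real.log Q) ^ 2 + C₂ * (Q / Real.log Q) ^ 2 := add_le_add a1 a2
    _ = (C₁ + C₂) * (Q / Real.log Q) ^ 2 := by ring

end Pool.Agent.helper85.SQ
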